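import Pool.Agent.Lib.MP_72f1d0_gt.Eq.ManStmt
import Pool.Agent.Lib.MP_72f1d0_gt.Eq.R0
import Pool.Agent.Lib.MP_72f1d0_gt.Eq.GB
import Pool.Agent.Lib.MP_72f1d0_gt.OStage
import Pool.Agent.Lib.MP_72f1d0_gt.RStage
import Pool.Agent.Lib.MP_72f1d0_gt.RelBead
import Pool.Agent.Lib.MP_72f1d0_gt.RelProfile
import Pool.Agent.Lib.MP_72f1d0_gt.Corr2
import Pool.Agent.Lib.MP_72f1d0_gt.SnakeC
import Pool.Agent.Lib.MP_72f1d0_gt.LT
import Pool.Agent.Lib.MP_72f1d0_gt.TauMove
import Pool.Agent.Lib.MP_72f1d0_gt.Move2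
import Pool.Agent.Lib.MP_72f1d0_gt.Pass2
import Pool.Agent.Lib.MP_72f1d0_gt.Psi
import Pool.Agent.Lib.MP_72f1d0_gt.Frames
import Pool.Agent.Lib.MP_72f1d0_gt.ML
import Pool.Agent.Lib.MP_72f1d0_gt.PC.Surf
import Pool.Agent.Lib.MP_72f1d0_gt.PC.Reach
import Pool.Agent.Lib.MP_72f1d0_gt.PC.Shrink
import Pool.Agent.Lib.MP_72f1d0_gt.PC.Push
import Pool.Agent.Lib.MP_72f1d0_gt.PC.Line
import Pool.Agent.Lib.MP_72f1d0_gt.PC.Boxes
import Pool.Agent.Lib.MP_72f1d0_gt.PC.Leaf
import Pool.Agent.Lib.MP_72f1d0_gt.PC.Loop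
import Pool.Agent.Lib.MP_72f1d0_gt.PC.Collar
import Pool.Agent.Lib.MP_72f1d0_gt.PC.Holes
import Pool.Agent.Lib.MP_72f1d0_gt.PC.Transfer
import Pool.Agent.Lib.MP_72f1d0_gt.PC.MStage
import Pool.Agent.Lib.MP_72f1d0_gt.PC.RelCircle
import Pool.Agent.Lib.MP_72f1d0_gt.PC.RelAnn
import Pool.Agent.Lib.MP_72f1d0_gt.PC.Fake
import Pool.Agent.Lib.MP_72f1d0_gt.PC.Model

/-!
The existence h-principle for embedded compact surfaces transverse to an arbitrary Engel
structure. All definitions used in the statement are in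
`Pool.Agent.Lib.MP_72f1d0_gt.Eq.ManStmt`.
-/

open scoped Manifold ContDiff unitInterval

namespace Pool.Agent.Results.MP_72f1d0_gt.Existence

open Pool.Agent.Lib.MP_72f1d0_gt Pool.Agent.Lib.MP_72f1d0_gt.Eq
  Pool.Agent.Lib.MP_72f1d0_gt.Eq.Stmt Pool.Agent.Lib.MP_72f1d0_gt.PC

/-- Let `D` be an Engel structure on a Hausdorff smooth 4-manifold `M`, and let `S` be a compact
smooth surface for an arbitrary model `J` on the plane (`J = 𝓡 2`: closed surfaces, `J = 𝓡∂ 2`:
surfaces with or without boundary). Every formal transverse embedding `A` of `S` is joined, by a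
path `γ` of formal transverse embeddings, to a genuine transverse embedding with its constant
formal data. -/
theorem result (M : Type*) [TopologicalSpace M] [T2Space M]
    [ChartedSpace (EuclideanSpace ℝ (Fin 4)) M] [IsManifold (𝓡 4) ∞ M]
    (D : Distr (EuclideanSpace ℝ (Fin 4)) M) (hD : Engel D)
    (H : Type*) [TopologicalSpace H] (J : ModelWithCorners ℝ (EuclideanSpace ℝ (Fin 2)) H)
    (S : Type*) [TopologicalSpace S] [CompactSpace S] [ChartedSpace H S] [IsManifold J ∞ S]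
    (A : Data J (EuclideanSpace ℝ (Fin 4)) S M) (hA : A.Formal D) :
    ∃ γ : I → Data J (EuclideanSpace ℝ (Fin 4)) S M,
      IsPath γ ∧ (∀ l, (γ l).Formal D) ∧ γ 0 = A ∧ (γ 1).Genuine := by
  have : T2Space S := .of_injective_continuous hA.1.2.1 hA.1.1.continuous
  have h4 : Module.finrank ℝ (EuclideanSpace ℝ (Fin 4)) = 4 := by simp
  have h2 : Module.finrank ℝ (EuclideanSpace ℝ (Fin 2)) = 2 := by simp
  obtain ⟨η, e0, e1, hB⟩ := relProfile
  have hO := o_of (tauMove corr2 frames) (move2 corr2 frames) (lt ml)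
  have hR := r_of (pass2 corr2 frames (snake2 ml psi)) (move2 corr2 frames) e0 e1
    (relBead ml psi e0 e1 hB)
  have hM : ModelStmt J S D := modelStmt h4 hD (fakeStmt frames)
  have hL : LineStmt J S D := lineStmt h4 h2 hD polarStmt
  have hd : DiscStmt J S := discStmt h2
  obtain ⟨y, ⟨γ, h1, h2, h3, rfl⟩, h5⟩ := final hd polarStmt compStmt (shrinkStmt compStmt)
    pushStmt (reachStmt D) hL (mcircle hM (transferStmt D) (circle frames hO))
    (mann hM (transferStmt D) (ann frames (r0 (gb ml psi)) e0 e1 hR))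
    (exAnn hL (boxesStmt h2 hd) leafStmt loopStmt (collarStmt h2 ift hd)) A hA
  exact ⟨γ, h1, h2, h3, fun s x => h5 x s⟩

end Pool.Agent.Results.MP_72f1d0_gt.Existence
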