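import Pool.Agent.Lib.MP_72f1d0_gt.Rel.Stmt
import Pool.Agent.Lib.MP_72f1d0_gt.Rel.Holes
import Pool.Agent.Lib.MP_72f1d0_gt.Rel.Wind
import Pool.Agent.Lib.MP_72f1d0_gt.Eq.R0
import Pool.Agent.Lib.MP_72f1d0_gt.Eq.GB
import Pool.Agent.Lib.MP_72f1d0_gt.OStage
import Pool.Agent.Lib.MP_72f1d0_gt.RStage
import Pool.Agent.Lib.MP_72f1d0_gt.RelBead
import Pool.Agent.Lib.MP_72f1d0_gt.RelProfile
import Pool.Agent.Lib.MP_72f1d0_gt.Corr2
import Pool.Agent.Lib.MP_72f1d0_gt.SnakeC
import Pool.Agent.Lib.MP_72f1d0_gt.LT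
import Pool.Agent.Lib.MP_72f1d0_gt.TauMove
import Pool.Agent.Lib.MP_72f1d0_gt.Move2
import Pool.Agent.Lib.MP_72f1d0_gt.Pass2
import Pool.Agent.Lib.MP_72f1d0_gt.Psi
import Pool.Agent.Lib.MP_72f1d0_gt.Frames
import Pool.Agent.Lib.MP_72f1d0_gt.ML
import Pool.Agent.Lib.MP_72f1d0_gt.PC.RelCircle
import Pool.Agent.Lib.MP_72f1d0_gt.PC.RelAnn
import Pool.Agent.Lib.MP_72f1d0_gt.PC.Fake
import Pool.Agent.Lib.MP_72f1d0_gt.PC.Model

/-!
The relative existence h-principle for embedded compact surfaces transverse to an Engel structure.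
All definitions used in the statement are in `Pool.Agent.Lib.MP_72f1d0_gt.Eq.ManStmt` and
`Pool.Agent.Lib.MP_72f1d0_gt.Rel.Stmt`.
-/

open scoped Manifold ContDiff unitInterval Topology

namespace Pool.Agent.Results.MP_72f1d0_gt.Relative

open Pool.Agent.Lib.MP_72f1d0_gt Pool.Agent.Lib.MP_72f1d0_gt.Eq
  Pool.Agent.Lib.MP_72f1d0_gt.Eq.Stmt Pool.Agent.Lib.MP_72f1d0_gt.PC
  Pool.Agent.Lib.MP_72f1d0_gt.Rel

/-- Let `D` be an Engel structure on a Hausdorff smooth 4-manifold `M`, let `S` be a compact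
smooth surface, `C` a closed subset of `S`, and `A` a formal transverse embedding of `S` that is
genuine near `C`. Assume that every connected component of the complement of `C` contains a
punctured torus, or a Moebius band, or an annulus along whose core the formal characteristic line
field does not wind, or a boundary point of `S`. Then `A` is joined to a genuine transverse
embedding by a path of formal transverse embeddings that is constant near `C`. -/
theorem result (M : Type*) [TopologicalSpace M] [T2Space M]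
    [ChartedSpace (EuclideanSpace ℝ (Fin 4)) M] [IsManifold (𝓡 4) ∞ M]
    (D : Distr (EuclideanSpace ℝ (Fin 4)) M) (hD : Engel D)
    (H : Type*) [TopologicalSpace H] (J : ModelWithCorners ℝ (EuclideanSpace ℝ (Fin 2)) H)
    (S : Type*) [TopologicalSpace S] [CompactSpace S] [ChartedSpace H S] [IsManifold J ∞ S]
    (A : Data J (EuclideanSpace ℝ (Fin 4)) S M) (hA : A.Formal D)
    (C : Set S) (hC : IsClosed C) (hAC : GenuineNear A C)
    (hT : ∀ x, x ∉ C → Fillable A D (connectedComponentIn Cᶜ x)) :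
    ∃ γ : I → Data J (EuclideanSpace ℝ (Fin 4)) S M,
      IsPath γ ∧ (∀ l, (γ l).Formal D) ∧ γ 0 = A ∧ (γ 1).Genuine ∧ ConstNear γ A C := by
  have : T2Space S := .of_injective_continuous hA.1.2.1 hA.1.1.continuous
  have h4 : Module.finrank ℝ (EuclideanSpace ℝ (Fin 4)) = 4 := by simp
  have h2 : Module.finrank ℝ (EuclideanSpace ℝ (Fin 2)) = 2 := by simp
  obtain ⟨η, e0, e1, hB⟩ := relProfile
  have hO := o_of (tauMove corr2 frames) (move2 corr2 frames) (lt ml)
  have hR := r_of (pass2 corr2 frames (snake2 ml psi)) (move2 corr2 frames) e0 e1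
    (relBead ml psi e0 e1 hB)
  have hM : ModelStmt J S D := modelStmt h4 hD (fakeStmt frames)
  have hL : LineStmt J S D := lineStmt h4 h2 hD polarStmt
  obtain ⟨y, ⟨γ, h1, h2', h3, rfl, h6⟩, h5⟩ := finalF (discStmt h2) hL hC
    (circleF hM (circle frames hO) C) (annF hM (ann frames (r0 (gb ml psi)) e0 e1 hR) C) hA hAC
    fun p hp hi => by
      rcases hT p hp with h | h | ⟨ψ, h, h'⟩ | ⟨y, hy, hb⟩
      · exact ann_of_handle h4 hD hA h
      · exact ann_of_moebius h4 hD hA h
      · exact ⟨ψ, ann_of_noWinding h h'⟩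
      · exact absurd (hi y hy) ((J.isBoundaryPoint_iff_not_isInteriorPoint y).1 hb)
  refine ⟨γ, h1, h2', h3, fun s x => h5 x s, ?_⟩
  filter_upwards [h6.eventually_nhdsSet, hAC] with x hx hg l s v
  have e : (γ l).f =ᶠ[𝓝 x] A.f := hx.mono fun p hp => (hp l).1
  have e' : Man.dv (EuclideanSpace ℝ (Fin 4)) J (γ l).f x =
      Man.dv (EuclideanSpace ℝ (Fin 4)) J A.f x := e.mfderiv_eq
  have e2 : Man.Fv (γ l) s x = Man.Fv A s x :=
    ((hx.self_of_nhds l).2 hg s).trans (e'.trans (hg s).symm)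
  exact Bundle.TotalSpace.ext e.eq_of_nhds (heq_of_eq (congrArg (fun T => T v) e2))

end Pool.Agent.Results.MP_72f1d0_gt.Relative
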